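import Pool.Agent.helper23.F2.Spec

/-!
# MP_26dbae_co (S07735), row f2:AX2 (Spec: Pool/Agent/helper23/F2/Spec.lean)
-/

set_option autoImplicit false

open scoped BigOperators

namespace Pool.Agent.F2

open Pool.Agent.helper23.TH

namespace AX2aux

/-- the middle part of a walk with `t + 2` steps -/
def mid {V : Type} {t : ℕ} (P : Fin (t + 3) → V) : Fin (t + 1) → V := fun i => P i.succ.castSucc

theorem mid_wk {V : Type} {t : ℕ} (A : V → V → Prop) (P : Fin (t + 3) → V) (h : Wk A (t + 2) P) :
    Wk A t (mid P) := by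
  intro j
  have h1 := h j.succ.castSucc
  have e1 : j.succ.castSucc.castSucc = (j.castSucc.succ.castSucc : Fin (t + 3)) := Fin.ext rfl
  have e2 : j.succ.castSucc.succ = (j.succ.succ.castSucc : Fin (t + 3)) := Fin.ext rfl
  rw [e1, e2] at h1
  exact h1

theorem mid_inl {V L : Type} {b s t : ℕ} (G : LG V L b s) (P : Fin (t + 3) → V) (i : Fin (t + 1)) :
    G.obj (mid P) (.inl i) = G.obj P (.inl i.succ.castSucc) := rfl

theorem mid_inr {V L : Type} {b s t : ℕ} (G : LG V L b s) (P : Fin (t + 3) → V) (j : Fin t) :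
    G.obj (mid P) (.inr j) = G.obj P (.inr j.succ.castSucc) := by
  show G.le (P j.castSucc.succ.castSucc) (P j.succ.succ.castSucc) =
    G.le (P j.succ.castSucc.castSucc) (P j.succ.castSucc.succ)
  have e1 : j.succ.castSucc.castSucc = (j.castSucc.succ.castSucc : Fin (t + 3)) := Fin.ext rfl
  have e2 : j.succ.castSucc.succ = (j.succ.succ.castSucc : Fin (t + 3)) := Fin.ext rfl
  rw [e1, e2]

/-- roles of the objects of the middle part -/
def mo {t : ℕ} : Ob t → Ob (t + 2)
  | .inl i => .inl i.succ.castSucc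
  | .inr j => .inr j.succ.castSucc

/-- roles in the other direction -/
def mo' {t : ℕ} : Ob t → Ob (t + 2)
  | .inl i => .inl i.succ.castSucc.rev
  | .inr j => .inr j.succ.castSucc.rev

theorem mo_inj {t : ℕ} : Function.Injective (mo (t := t)) := by
  rintro (i | i) (j | j) h
  · simp only [mo, Sum.inl.injEq] at h
    rw [Fin.succ_injective _ (Fin.castSucc_injective _ h)]
  · simp [mo] at h
  · simp [mo] at h
  · simp only [mo, Sum.inr.injEq] at h
    rw [Fin.succ_injective _ (Fin.castSucc_injective _ h)]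

theorem mo'_inj {t : ℕ} : Function.Injective (mo' (t := t)) := by
  rintro (i | i) (j | j) h
  · simp only [mo', Sum.inl.injEq] at h
    rw [Fin.succ_injective _ (Fin.castSucc_injective _ (Fin.rev_injective h))]
  · simp [mo'] at h
  · simp [mo'] at h
  · simp only [mo', Sum.inr.injEq] at h
    rw [Fin.succ_injective _ (Fin.castSucc_injective _ (Fin.rev_injective h))]

theorem cln_of {V L : Type} {b s t u : ℕ} (G : LG V L b s) (P : Fin (t + 1) → V) (ρ : L → Ob u)
    (f : Ob t → Ob u) (hf : Function.Injective f) (h : ∀ o, ∀ z ∈ G.obj P o, ρ z = f o) : G.Cln P := by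
  intro o o' hne
  rw [Finset.disjoint_left]
  intro z hz hz'
  exact hne (hf ((h o z hz).symm.trans (h o' z hz')))

end AX2aux

open AX2aux in
theorem AX2 (hAX1 : AX1_stmt) (hWK5 : WK5_stmt) : AX2_stmt := by
  classical
  intro V L _ b s G t q m m' ρ S ht hAD x y hxy
  obtain ⟨-, -, -, h4, h5, h6, h7, h8⟩ := hAX1 V L b s G t q m m' ρ S ht hAD
  have haP : aP S x y = mid (aw S x y) := rfl
  have e0 : (0 : Fin (t + 1)).succ.castSucc = (1 : Fin (t + 3)) := rfl
  have e1 : (Fin.last t).succ.castSucc = ((Fin.last (t + 1)).castSucc : Fin (t + 3)) := by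
    rw [Fin.succ_last]
  cases hc : ac G ρ x with
  | false =>
    have hB := h6 x y hxy hc
    obtain ⟨hS, hx, hy⟩ := hB
    have hwk := hAD.walk _ hS
    have hrole := hAD.role _ hS
    have hrole2 : ∀ o, ∀ z ∈ G.obj (mid (aw S x y)) o, ρ z = mo o := by
      rintro (i | j) z hz
      · rw [mid_inl] at hz
        exact hrole _ z hz
      · rw [mid_inr] at hz
        exact hrole _ z hz
    refine ⟨?_, ?_, ?_, ?_, ?_, ?_⟩
    · rw [haP]
      exact mid_wk G.A _ hwk
    · rw [haP]
      show aw S x y (0 : Fin (t + 1)).succ.castSucc = x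
      rw [e0, hx]
    · rw [haP]
      show aw S x y (Fin.last t).succ.castSucc = y
      rw [e1, hy]
    · intro _
      rw [haP]
      exact ⟨fun i z hz => hrole2 (.inl i) z hz, fun j z hz => hrole2 (.inr j) z hz⟩
    · intro h
      exact absurd h (by simp)
    · rw [haP]
      exact cln_of G _ ρ mo mo_inj hrole2
  | true =>
    have hB := h7 x y hxy hc
    obtain ⟨hS, hx, hy⟩ := hB
    have hwk := hAD.walk _ hS
    have hrole := hAD.role _ hS
    -- the reversed walk
    have hrev : (fun i : Fin (t + 3) => (fun k : Fin (t + 3) => aw S x y k.rev) i.rev) = aw S x y := by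
      funext i
      show aw S x y i.rev.rev = aw S x y i
      rw [Fin.rev_rev]
    obtain ⟨w1, w2, w3, w4⟩ := hWK5 V L b s G (t + 2) (fun k : Fin (t + 3) => aw S x y k.rev)
    rw [hrev] at w1
    have w2' : ∀ i, G.obj (aw S x y) (.inl i) = G.obj (fun k : Fin (t + 3) => aw S x y k.rev) (.inl i.rev) := by
      intro i
      have := w2 i
      rw [hrev] at this
      exact this
    have w3' : ∀ j, G.obj (aw S x y) (.inr j) = G.obj (fun k : Fin (t + 3) => aw S x y k.rev) (.inr j.rev) := by
      intro j
      have := w3 j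
      rw [hrev] at this
      exact this
    have hrole2 : ∀ o, ∀ z ∈ G.obj (mid (aw S x y)) o, ρ z = mo' o := by
      rintro (i | j) z hz
      · rw [mid_inl, w2'] at hz
        exact hrole _ z hz
      · rw [mid_inr, w3'] at hz
        exact hrole _ z hz
    have r1 : ((1 : Fin (t + 3)).rev) = ((Fin.last (t + 1)).castSucc : Fin (t + 3)) := by
      apply Fin.ext
      rw [Fin.val_rev]
      simp
    have r2 : ((Fin.last (t + 1)).castSucc : Fin (t + 3)).rev = 1 := by
      rw [← r1, Fin.rev_rev]
    refine ⟨?_, ?_, ?_, ?_, ?_, ?_⟩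
    · rw [haP]
      exact mid_wk G.A _ (w1 hwk)
    · rw [haP]
      show aw S x y (0 : Fin (t + 1)).succ.castSucc = x
      rw [e0]
      have hy' : aw S x y ((Fin.last (t + 1)).castSucc : Fin (t + 3)).rev = x := hy
      rw [r2] at hy'
      exact hy'
    · rw [haP]
      show aw S x y (Fin.last t).succ.castSucc = y
      rw [e1]
      have hx' : aw S x y (1 : Fin (t + 3)).rev = y := hx
      rw [r1] at hx'
      exact hx'
    · intro h
      exact absurd h (by simp)
    · intro _
      rw [haP]
      exact ⟨fun i z hz => hrole2 (.inl i) z hz, fun j z hz => hrole2 (.inr j) z hz⟩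
    · rw [haP]
      exact cln_of G _ ρ mo' mo'_inj hrole2

end Pool.Agent.F2
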